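import Pool.Agent.X12.TwFin

/-!
# The product over the quadratic residues at the primitive twelfth roots of unity, `p ≡ 19 (mod 24)`
-/

set_option autoImplicit false

namespace Pool.Agent.Results.MP_fa5f9d_nt.TwelfthRootsNineteen

open Finset Complex Polynomial Pool.Agent.X12

/-- `S_p(x) = ∏_{k=1}^{(p-1)/2} (x - exp (2 π i k² / p))` -/
noncomputable def S (p : ℕ) (x : ℂ) : ℂ :=
  ∏ k ∈ Finset.Icc 1 ((p - 1) / 2), (x - exp (2 * Real.pi * I * (k : ℂ) ^ 2 / p))

lemma prim12 {K : Type*} [Field K] {z : K} (hz : IsPrimitiveRoot z 12) : z ^ 4 - z ^ 2 + 1 = 0 := by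
  have h12 := hz.pow_eq_one
  have h6 : z ^ 6 - 1 ≠ 0 := sub_ne_zero.2 (hz.pow_ne_one_of_pos_of_lt (by norm_num) (by norm_num))
  have h6' : z ^ 6 + 1 = 0 := by
    have : (z ^ 6 - 1) * (z ^ 6 + 1) = 0 := by linear_combination h12
    exact (mul_eq_zero.1 this).resolve_left h6
  have h2 : z ^ 2 + 1 ≠ 0 := by
    intro h
    have h4 : z ^ 4 = 1 := by linear_combination (z ^ 2 - 1) * h
    exact hz.pow_ne_one_of_pos_of_lt (by norm_num) (by norm_num) h4
  have : (z ^ 2 + 1) * (z ^ 4 - z ^ 2 + 1) = 0 := by linear_combination h6'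
  exact (mul_eq_zero.1 this).resolve_left h2

/-- Reduction modulo a prime above `p`. -/
lemma reduce {p : ℕ} [Fact p.Prime] {m : ℕ} (hm : p = 24 * m + 19) {x y : ℤ}
    (hxy : (p : ℤ) = (4 * x) ^ 2 + 3 * y ^ 2) {j : ℕ} (hj : Nat.Coprime j 12) {η z : ℂ}
    (hprim : IsPrimitiveRoot η (12 * p)) (hη12 : ∀ k : ℕ, η ^ (12 * k) = ps p (k : ZMod p))
    (hηp : η ^ (p * j) = z) {K : Type*} [Field K] [Algebra (ZMod p) K] {g : K}
    (hg : IsPrimitiveRoot g 12) {δ : ℤ} (hval : PE p 1 z = δ * (z + z ^ 2)) :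
    (δ : K) = (-1) ^ m * (if x % 2 = 0 then 1 else -1) := by
  have : CharP K p := charP_of_injective_algebraMap (algebraMap (ZMod p) K).injective p
  have hp := (Fact.out : p.Prime)
  have hn : p = 2 * (12 * m + 9) + 1 := by omega
  have hp12 : ¬ p ∣ 12 := fun h => by have := Nat.le_of_dvd (by norm_num) h; omega
  let F : ℤ[X] := (∏ a : ZMod p, if qc p a = 1 then X ^ (p * j) - X ^ (12 * a.val) else 1) -
    C δ * (X ^ (p * j) + X ^ (p * j * 2))
  have hF : aeval η F = 0 := by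
    show aeval η ((∏ a : ZMod p, if qc p a = 1 then X ^ (p * j) - X ^ (12 * a.val) else 1) -
      C δ * (X ^ (p * j) + X ^ (p * j * 2)) : ℤ[X]) = 0
    rw [map_sub, map_prod, map_mul, aeval_C, map_add, map_pow, map_pow, aeval_X, pow_mul η (p * j) 2,
      hηp]
    have h1 : (∏ a : ZMod p, aeval η (if qc p a = 1 then X ^ (p * j) - X ^ (12 * a.val) else 1 : ℤ[X]))
        = PE p 1 z := by
      rw [PE]
      refine Finset.prod_congr rfl fun a _ => ?_
      split_ifs
      · rw [map_sub, map_pow, map_pow, aeval_X, hηp, hη12, ZMod.natCast_zmod_val]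
      · rw [map_one]
    rw [h1, hval]
    simp
  have hpg : Nat.Coprime (p * j) 12 :=
    Nat.Coprime.mul_left ((Nat.Prime.coprime_iff_not_dvd hp).2 hp12) hj
  have hG := transfer_char (p := p) (N := 12) (by norm_num) hp12 hprim hg F hF
  set z' := g ^ (p * j) with hz'
  have hz'12 : z' ^ 4 - z' ^ 2 + 1 = 0 := prim12 (hg.pow_of_coprime _ hpg)
  have hG' : (z' - 1) ^ (12 * m + 9) = (δ : K) * (z' + z' ^ 2) := by
    have h0 : aeval g F = (z' - 1) ^ (12 * m + 9) - δ * (z' + z' ^ 2) := by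
      show aeval g ((∏ a : ZMod p, if qc p a = 1 then X ^ (p * j) - X ^ (12 * a.val) else 1) -
        C δ * (X ^ (p * j) + X ^ (p * j * 2)) : ℤ[X]) = _
      rw [map_sub, map_prod, map_mul, aeval_C, map_add, map_pow, map_pow, aeval_X,
        pow_mul g (p * j) 2, ← hz']
      have h1 : (∏ a : ZMod p, aeval g (if qc p a = 1 then X ^ (p * j) - X ^ (12 * a.val) else 1 : ℤ[X]))
          = (z' - 1) ^ (12 * m + 9) := by
        have h2 := prod_squares hn (fun _ : ZMod p => z' - 1)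
        rw [Finset.prod_const, Nat.card_Icc, Nat.add_sub_cancel] at h2
        rw [h2]
        refine Finset.prod_congr rfl fun a _ => ?_
        split_ifs
        · rw [map_sub, map_pow, map_pow, aeval_X, ← hz', pow_mul, hg.pow_eq_one, one_pow]
        · rw [map_one]
      rw [h1]
      simp
    rw [h0] at hG
    exact sub_eq_zero.1 hG
  have hC := char_value hm hxy hz'12
  rw [hG'] at hC
  have hzz : z' + z' ^ 2 ≠ 0 := by
    intro h
    have h1 : z' * (1 + z') = 0 := by linear_combination h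
    rcases mul_eq_zero.1 h1 with h2 | h2
    · rw [h2] at hz'12
      norm_num at hz'12
    · have h3 : z' = -1 := by linear_combination h2
      rw [h3] at hz'12
      norm_num at hz'12
  exact mul_right_cancel₀ hzz hC

/-- The value with its sign. -/
lemma value {p : ℕ} [Fact p.Prime] {m : ℕ} (hm : p = 24 * m + 19) {x y : ℤ}
    (hxy : (p : ℤ) = (4 * x) ^ 2 + 3 * y ^ 2) {j : ℕ} (hj : Nat.Coprime j 12) {z : ℂ}
    (hz : z = exp (2 * Real.pi * I / 12) ^ j) :
    S p z = (-1) ^ m * (if x % 2 = 0 then 1 else -1) * (z + z ^ 2) := by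
  have hp := (Fact.out : p.Prime)
  have hn : p = 2 * (12 * m + 9) + 1 := by omega
  have h12p : (12 : ℕ) * p ≠ 0 := Nat.mul_ne_zero (by norm_num) hp.ne_zero
  set η : ℂ := exp (2 * Real.pi * I / ((12 * p : ℕ) : ℂ)) with hη
  have hprim : IsPrimitiveRoot η (12 * p) := Complex.isPrimitiveRoot_exp _ h12p
  have hp0 : (p : ℂ) ≠ 0 := by exact_mod_cast hp.ne_zero
  have hη12 : ∀ k : ℕ, η ^ (12 * k) = ps p (k : ZMod p) := by
    intro k
    rw [ps_nat, hη, ← Complex.exp_nat_mul]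
    congr 1
    push_cast
    field_simp
  have hηp : η ^ (p * j) = z := by
    rw [hz, pow_mul]
    congr 1
    rw [hη, ← Complex.exp_nat_mul]
    congr 1
    push_cast
    field_simp
  have hS : S p z = PE p 1 z := by
    rw [S, show (p - 1) / 2 = 12 * m + 9 by omega, S_eq_SQ hn, PE_one]
  have hz12 : IsPrimitiveRoot z 12 := by
    rw [hz]
    have h1 : IsPrimitiveRoot (exp (2 * Real.pi * I / ((12 : ℕ) : ℂ))) 12 :=
      Complex.isPrimitiveRoot_exp 12 (by norm_num)
    push_cast at h1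
    exact h1.pow_of_coprime j hj
  obtain ⟨δ, hδ, hval⟩ : ∃ δ : ℤ, (δ = 1 ∨ δ = -1) ∧ PE p 1 z = δ * (z + z ^ 2) := by
    rcases PE_twelfth hm (prim12 hz12) with h | h
    · exact ⟨1, Or.inl rfl, by rw [h]; push_cast; ring⟩
    · exact ⟨-1, Or.inr rfl, by rw [h]; push_cast; ring⟩
  have : NeZero ((12 : ℕ) : AlgebraicClosure (ZMod p)) := by
    refine ⟨fun h => ?_⟩
    rw [CharP.cast_eq_zero_iff (AlgebraicClosure (ZMod p)) p] at h
    have := Nat.le_of_dvd (by norm_num) h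
    omega
  obtain ⟨g, hg⟩ := HasEnoughRootsOfUnity.exists_primitiveRoot (AlgebraicClosure (ZMod p)) 12
  have hred := reduce hm hxy hj hprim hη12 hηp hg hval
  have h2K : (2 : AlgebraicClosure (ZMod p)) ≠ 0 := by
    intro h
    have h2 : ((2 : ℕ) : AlgebraicClosure (ZMod p)) = 0 := by push_cast; exact h
    rw [CharP.cast_eq_zero_iff (AlgebraicClosure (ZMod p)) p] at h2
    have := Nat.le_of_dvd (by norm_num) h2
    omega
  have hne : (1 : AlgebraicClosure (ZMod p)) ≠ -1 := by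
    intro h
    exact h2K (by linear_combination h)
  have hδ2 : (δ : ℂ) = (-1) ^ m * (if x % 2 = 0 then 1 else -1) := by
    rcases neg_one_pow_eq_or (AlgebraicClosure (ZMod p)) m with h1 | h1
    · have h1' : (-1 : ℂ) ^ m = 1 := by
        rcases Nat.even_or_odd m with h | h
        · exact h.neg_one_pow
        · exfalso; rw [h.neg_one_pow] at h1; exact hne h1.symm
      rw [h1, one_mul] at hred
      rw [h1', one_mul]
      rcases hδ with rfl | rfl
      · split_ifs at hred ⊢ with hx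
        · norm_num
        · exfalso; push_cast at hred; exact hne hred
      · split_ifs at hred ⊢ with hx
        · exfalso; push_cast at hred; exact hne hred.symm
        · norm_num
    · have h1' : (-1 : ℂ) ^ m = -1 := by
        rcases Nat.even_or_odd m with h | h
        · exfalso; rw [h.neg_one_pow] at h1; exact hne h1
        · exact h.neg_one_pow
      rw [h1] at hred
      rw [h1']
      rcases hδ with rfl | rfl
      · split_ifs at hred ⊢ with hx
        · exfalso; push_cast at hred; exact hne (by linear_combination hred)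
        · norm_num
      · split_ifs at hred ⊢ with hx
        · norm_num
        · exfalso; push_cast at hred; exact hne (by linear_combination - hred)
  rw [hS, hval, hδ2]

/-- For every prime `p ≡ 19 (mod 24)` there are integers with `p = (4x)² + 3y²`, and for all such
integers the four identities hold. -/
theorem result (p : ℕ) (hp : p.Prime) (h24 : p % 24 = 19) :
    (∃ x y : ℤ, (p : ℤ) = (4 * x) ^ 2 + 3 * y ^ 2) ∧
    ∀ x y : ℤ, (p : ℤ) = (4 * x) ^ 2 + 3 * y ^ 2 →
      S p (exp (2 * Real.pi * I / 12)) =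
        (-1 : ℂ) ^ ((((p - 19) / 24 : ℕ) : ℤ) + x) * (1 + I) * ((1 + Real.sqrt 3) / 2) ∧
      S p (exp (-(2 * Real.pi * I / 12))) =
        (-1 : ℂ) ^ ((((p - 19) / 24 : ℕ) : ℤ) + x) * (1 - I) * ((1 + Real.sqrt 3) / 2) ∧
      S p (exp (2 * Real.pi * I * 5 / 12)) =
        (-1 : ℂ) ^ ((((p - 19) / 24 : ℕ) : ℤ) + x) * (1 + I) * ((1 - Real.sqrt 3) / 2) ∧
      S p (exp (-(2 * Real.pi * I * 5 / 12))) =
        (-1 : ℂ) ^ ((((p - 19) / 24 : ℕ) : ℤ) + x) * (1 - I) * ((1 - Real.sqrt 3) / 2) := by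
  have : Fact p.Prime := ⟨hp⟩
  obtain ⟨m, hm⟩ : ∃ m : ℕ, p = 24 * m + 19 := ⟨(p - 19) / 24, by omega⟩
  have hmd : (p - 19) / 24 = m := by omega
  rw [hmd]
  constructor
  · have h3 : qc p (-3) = 1 := by
      have h1 : qc p ((3 : ℕ) : ZMod p) = -1 := by
        rw [qc_nat (by omega) (by norm_num), if_neg (by norm_num), jacobiSym.mod_left]
        have : (p : ℤ) % (3 : ℕ) = 1 := by omega
        rw [this, jacobiSym.one_left]
        norm_num
      have h2 := qc_neg (p := p) ((3 : ℕ) : ZMod p)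
      rw [h1, qc_neg_one_of_three (by omega)] at h2
      push_cast at h2
      rw [h2]
      try norm_num
    obtain ⟨c, d, hcd⟩ := exists_sq_add_three (p := p) (by omega) h3
    have sq8 : ∀ w : ℤ, (w ^ 2) % 8 = 0 ∧ w % 4 = 0 ∨ (w ^ 2) % 8 = 1 ∨
        (w ^ 2) % 8 = 4 := by
      intro w
      rcases (by omega : w % 8 = 0 ∨ w % 8 = 1 ∨ w % 8 = 2 ∨ w % 8 = 3 ∨ w % 8 = 4 ∨ w % 8 = 5 ∨
        w % 8 = 6 ∨ w % 8 = 7) with h | h | h | h | h | h | h | h
      · left; exact ⟨by simp [sq, Int.mul_emod, h], by omega⟩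
      · right; left; simp [sq, Int.mul_emod, h]
      · right; right; simp [sq, Int.mul_emod, h]
      · right; left; simp [sq, Int.mul_emod, h]
      · left; exact ⟨by simp [sq, Int.mul_emod, h], by omega⟩
      · right; left; simp [sq, Int.mul_emod, h]
      · right; right; simp [sq, Int.mul_emod, h]
      · right; left; simp [sq, Int.mul_emod, h]
    have hc : c % 4 = 0 := by
      have h1 := sq8 c
      have h2 := sq8 d
      omega
    obtain ⟨x, rfl⟩ := Int.dvd_of_emod_eq_zero hc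
    exact ⟨x, d, hcd⟩
  intro x y hxy
  have hsg : (-1 : ℂ) ^ m * (if x % 2 = 0 then 1 else -1) = (-1 : ℂ) ^ ((m : ℤ) + x) := by
    rw [zpow_add₀ (by norm_num), zpow_natCast]
    congr 1
    split_ifs with h
    · rw [Even.neg_one_zpow (Int.even_iff.2 h)]
    · rw [Odd.neg_one_zpow (Int.odd_iff.2 (by omega))]
  set ζ := exp (2 * Real.pi * I / 12) with hζ
  have hζv : ζ = Real.sqrt 3 / 2 + I / 2 := by
    have e : 2 * Real.pi * I / 12 = ((Real.pi / 6 : ℝ) : ℂ) * I := by push_cast; ring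
    rw [hζ, e, Complex.exp_mul_I, ← Complex.ofReal_cos, ← Complex.ofReal_sin, Real.cos_pi_div_six,
      Real.sin_pi_div_six]
    push_cast
    ring
  have hs3 : ((Real.sqrt 3 : ℝ) : ℂ) ^ 2 = 3 := by
    rw [← Complex.ofReal_pow, Real.sq_sqrt (by norm_num)]
    norm_num
  have hI : I ^ 2 = -1 := Complex.I_sq
  have hζ2 : ζ ^ 2 = 1 / 2 + I * Real.sqrt 3 / 2 := by
    rw [hζv]; linear_combination (1 / 4) * hs3 + (1 / 4) * hI
  have hζ4 : ζ ^ 4 = - 1 / 2 + I * Real.sqrt 3 / 2 := by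
    rw [show ζ ^ 4 = (ζ ^ 2) ^ 2 by ring, hζ2]
    linear_combination (Real.sqrt 3 ^ 2 / 4) * hI - (1 / 4) * hs3
  have hζ6 : ζ ^ 6 = -1 := by
    rw [show ζ ^ 6 = ζ ^ 4 * ζ ^ 2 by ring, hζ4, hζ2]
    linear_combination (Real.sqrt 3 ^ 2 / 4) * hI - (1 / 4) * hs3
  have hζ5 : ζ ^ 5 = - Real.sqrt 3 / 2 + I / 2 := by
    rw [show ζ ^ 5 = ζ ^ 4 * ζ by ring, hζ4, hζv]
    linear_combination (Real.sqrt 3 / 4) * hI + (I / 4) * hs3
  have hζ7 : ζ ^ 7 = - (Real.sqrt 3 / 2 + I / 2) := by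
    rw [show ζ ^ 7 = ζ ^ 6 * ζ by ring, hζ6, hζv]; ring
  have hζ11 : ζ ^ 11 = Real.sqrt 3 / 2 - I / 2 := by
    rw [show ζ ^ 11 = ζ ^ 6 * ζ ^ 5 by ring, hζ6, hζ5]; ring
  have hζ12 : ζ ^ 12 = 1 := by
    rw [show ζ ^ 12 = ζ ^ 6 * ζ ^ 6 by ring, hζ6]; ring
  have hζ0 : ζ ≠ 0 := Complex.exp_ne_zero _
  have e11 : exp (-(2 * Real.pi * I / 12)) = ζ ^ 11 := by
    rw [Complex.exp_neg, ← hζ]
    exact inv_eq_of_mul_eq_one_right (by rw [← hζ12]; ring)
  have e5 : exp (2 * Real.pi * I * 5 / 12) = ζ ^ 5 := by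
    rw [hζ, ← Complex.exp_nat_mul]
    congr 1
    push_cast
    ring
  have e7 : exp (-(2 * Real.pi * I * 5 / 12)) = ζ ^ 7 := by
    rw [Complex.exp_neg, e5]
    exact inv_eq_of_mul_eq_one_right (by rw [← hζ12]; ring)
  refine ⟨?_, ?_, ?_, ?_⟩
  · have h := value hm hxy (j := 1) (by norm_num) (z := ζ) (by rw [pow_one])
    rw [h, hsg, hζ2, hζv]
    ring
  · rw [e11, value hm hxy (j := 11) (by norm_num) rfl, hsg, ← pow_mul,
      show 11 * 2 = 12 + 6 + 4 by norm_num, pow_add, pow_add, hζ12, hζ6, hζ4, hζ11]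
    ring
  · rw [e5, value hm hxy (j := 5) (by norm_num) rfl, hsg, ← pow_mul,
      show 5 * 2 = 6 + 4 by norm_num, pow_add, hζ6, hζ4, hζ5]
    ring
  · rw [e7, value hm hxy (j := 7) (by norm_num) rfl, hsg, ← pow_mul,
      show 7 * 2 = 12 + 2 by norm_num, pow_add, hζ12, hζ2, hζ7]
    ring

end Pool.Agent.Results.MP_fa5f9d_nt.TwelfthRootsNineteen
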